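import Pool.Agent.Helper68.DS.Goals2

/-! Packet ADJD of campaign DS (MP_52cd29_ag). -/

namespace Pool.Agent.Helper88.DS

open Pool.Agent.Helper68.DS

/-- Packet ADJD (the hypothesis `PM_stmt` is not needed). -/
theorem ADJD : ADJD_stmt := by
  intro A _ _ _ k d N hd i j hij
  set Mp : Matrix (Fin k) (Fin k) (Polynomial A) :=
    Matrix.diagonal (fun i => Polynomial.C (d i)) + (Polynomial.X : Polynomial A) •
      N.map Polynomial.C with hMp
  set p : Polynomial A := Mp.adjugate i j with hp
  have hev : ∀ t : ℂ, (Matrix.diagonal d + t • N).adjugate i j =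
      p.eval (algebraMap ℂ A t) := by
    intro t
    have h1 : (Polynomial.evalRingHom (algebraMap ℂ A t)).mapMatrix Mp =
        Matrix.diagonal d + t • N := by
      ext a b
      simp only [hMp, RingHom.mapMatrix_apply, Matrix.map_apply, Matrix.add_apply,
        Matrix.smul_apply, Matrix.diagonal_apply, smul_eq_mul, map_add, map_mul,
        Polynomial.coe_evalRingHom, Polynomial.eval_X, Polynomial.eval_C]
      rw [Algebra.smul_def]
      congr 1
      · split_ifs <;> simp
      · rw [Polynomial.eval_mul, Polynomial.eval_X, Polynomial.eval_C]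
    rw [← h1, ← RingHom.map_adjugate]
    rfl
  have hc0 : ∀ a b, (Mp.adjugate a b).coeff 0 = (Matrix.diagonal d).adjugate a b := by
    intro a b
    have h1 : (Polynomial.constantCoeff (R := A)).mapMatrix Mp = Matrix.diagonal d := by
      ext a b
      simp only [hMp, RingHom.mapMatrix_apply, Matrix.map_apply, Matrix.add_apply,
        Matrix.smul_apply, Matrix.diagonal_apply, smul_eq_mul, map_add, map_mul,
        Polynomial.constantCoeff_apply, Polynomial.coeff_X_zero, zero_mul, add_zero]
      split_ifs <;> simp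
    rw [← h1, ← RingHom.map_adjugate]
    rfl
  have hdiag : ∀ a b, (Matrix.diagonal d).adjugate a b =
      if a = b then ∏ l ∈ Finset.univ.erase a, d l else 0 := by
    intro a b
    rw [Matrix.adjugate_diagonal, Matrix.diagonal_apply]
  have h0 : p.coeff 0 = 0 := by rw [hp, hc0, hdiag, if_neg hij]
  have h1 : p.coeff 1 = - (N i j * ∏ l ∈ (Finset.univ.erase i).erase j, d l) := by
    have e1 : (Mp * Mp.adjugate) i j = 0 := by
      rw [Matrix.mul_adjugate, Matrix.smul_apply, Matrix.one_apply_ne hij, smul_zero]
    have e2 : (Mp * Mp.adjugate) i j = Polynomial.C (d i) * p +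
        Polynomial.X * ∑ l, Polynomial.C (N i l) * Mp.adjugate l j := by
      rw [hMp, add_mul, Matrix.add_apply, Matrix.diagonal_mul, Matrix.smul_mul,
        Matrix.smul_apply, smul_eq_mul, Matrix.mul_apply]
      rfl
    rw [e2] at e1
    have e3 := congrArg (fun q => Polynomial.coeff q 1) e1
    simp only [Polynomial.coeff_add, Polynomial.coeff_C_mul, Polynomial.coeff_zero] at e3
    rw [Polynomial.coeff_X_mul, Polynomial.finsetSum_coeff] at e3
    have e4 : ∑ l, (Polynomial.C (N i l) * Mp.adjugate l j).coeff 0 =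
        N i j * ∏ l ∈ Finset.univ.erase j, d l := by
      rw [Finset.sum_eq_single j]
      · rw [Polynomial.coeff_C_mul, hc0, hdiag, if_pos rfl]
      · intro l _ hl
        rw [Polynomial.coeff_C_mul, hc0, hdiag, if_neg hl, mul_zero]
      · intro h
        exact absurd (Finset.mem_univ j) h
    rw [e4] at e3
    have e5 : ∏ l ∈ Finset.univ.erase j, d l = d i * ∏ l ∈ (Finset.univ.erase i).erase j, d l := by
      rw [Finset.erase_right_comm, Finset.mul_prod_erase _ _ (by simp [hij])]
    rw [e5] at e3
    apply mul_left_cancel₀ (hd i)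
    linear_combination e3
  refine ⟨fun t => ∑ n ∈ Finset.range (p.natDegree + 1), t ^ n • p.coeff (n + 2),
    ⟨_, _, fun t => rfl⟩, ?_⟩
  intro t
  rw [hev t, Polynomial.eval_eq_sum_range' (n := p.natDegree + 1 + 2) (by omega),
    Finset.sum_range_succ', Finset.sum_range_succ', h0, h1, Finset.smul_sum]
  simp only [Algebra.smul_def, map_pow]
  have e6 : ∀ n, p.coeff (n + 1 + 1) * (algebraMap ℂ A) t ^ (n + 1 + 1) =
      (algebraMap ℂ A) t ^ 2 * ((algebraMap ℂ A) t ^ n * p.coeff (n + 2)) := by
    intro n
    rw [show n + 1 + 1 = n + 2 from rfl, pow_add]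
    ring
  rw [Finset.sum_congr rfl fun n _ => e6 n]
  ring

end Pool.Agent.Helper88.DS
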