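import Pool.Agent.Helper68.DS.Goals2

/-! Packet BASECH of campaign DS (MP_52cd29_ag). -/

namespace Pool.Agent.Helper88.DS

open Pool.Agent.Helper68.DS MvPolynomial

/-- The nilpotent part. -/
def EE (R : Type) [CommRing R] (m : ℕ) : Matrix (Fin (m + 1)) (Fin (m + 1)) R :=
  Matrix.of fun i j => if j = 0 ∧ i ≠ 0 then 1 else 0

theorem EE_apply (R : Type) [CommRing R] (m : ℕ) (i j : Fin (m + 1)) :
    EE R m i j = if j = 0 ∧ i ≠ 0 then 1 else 0 := rfl

theorem EE_sq (R : Type) [CommRing R] (m : ℕ) : EE R m * EE R m = 0 := by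
  ext i j
  rw [Matrix.mul_apply]
  refine Finset.sum_eq_zero fun l _ => ?_
  rw [EE_apply, EE_apply]
  by_cases h : l = 0
  · have : ¬ (j = 0 ∧ l ≠ 0) := fun h' => h'.2 h
    rw [if_neg this, mul_zero]
  · have : ¬ (l = 0 ∧ i ≠ 0) := fun h' => h h'.1
    rw [if_neg this, zero_mul]

/-- The change of basis. -/
def KK (R : Type) [CommRing R] (m : ℕ) : Matrix (Fin (m + 1)) (Fin (m + 1)) R := 1 - EE R m

/-- Its inverse. -/
def LLm (R : Type) [CommRing R] (m : ℕ) : Matrix (Fin (m + 1)) (Fin (m + 1)) R := 1 + EE R m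

theorem KL (R : Type) [CommRing R] (m : ℕ) : KK R m * LLm R m = 1 := by
  unfold KK LLm
  rw [sub_mul, mul_add, mul_add, EE_sq]
  simp

theorem LK (R : Type) [CommRing R] (m : ℕ) : LLm R m * KK R m = 1 := by
  unfold KK LLm
  rw [add_mul, mul_sub, mul_sub, EE_sq]
  simp

theorem detK (R : Type) [CommRing R] (m : ℕ) : (KK R m).det = 1 := by
  rw [Matrix.det_of_isLowerTriangular]
  · refine Finset.prod_eq_one fun i _ => ?_
    unfold KK
    rw [Matrix.sub_apply, Matrix.one_apply_eq, EE_apply]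
    have : ¬ (i = 0 ∧ i ≠ 0) := fun h => h.2 h.1
    rw [if_neg this, sub_zero]
  · intro i j hij
    have hij' : i < j := hij
    unfold KK
    rw [Matrix.sub_apply, Matrix.one_apply_ne hij'.ne, EE_apply]
    have : ¬ (j = 0 ∧ i ≠ 0) := fun h => by
      rw [h.1] at hij'
      exact absurd hij' (Fin.not_lt_zero _)
    rw [if_neg this, sub_zero]

theorem adjK (R : Type) [CommRing R] (m : ℕ) : (KK R m).adjugate = LLm R m := by
  have h := Matrix.mul_adjugate (KK R m)
  rw [detK, one_smul] at h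
  calc (KK R m).adjugate = (LLm R m * KK R m) * (KK R m).adjugate := by rw [LK, one_mul]
    _ = LLm R m * (KK R m * (KK R m).adjugate) := by rw [mul_assoc]
    _ = LLm R m := by rw [h, mul_one]

theorem L_col (R : Type) [CommRing R] (m : ℕ) (i : Fin (m + 1)) : LLm R m i 0 = 1 := by
  unfold LLm
  rw [Matrix.add_apply, EE_apply]
  by_cases h : i = 0
  · subst h
    simp
  · rw [Matrix.one_apply_ne h]
    simp [h]

theorem K_const (m : ℕ) (i j : Fin (m + 1)) :
    KK (MvPolynomial (Fin 3) ℂ) m i j = C (KK ℂ m i j) := by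
  unfold KK
  rw [Matrix.sub_apply, Matrix.sub_apply, EE_apply, EE_apply, map_sub, Matrix.one_apply,
    Matrix.one_apply]
  congr 1
  · split_ifs <;> simp
  · split_ifs <;> simp

theorem rowsum {R : Type} [CommRing R] {m : ℕ} (A A' K L : Matrix (Fin (m + 1)) (Fin (m + 1)) R)
    (hA : A' = L.transpose * A * L) (hLK : L * K = 1) (hL : ∀ i, L i 0 = 1) (i : Fin (m + 1)) :
    ∑ j, A i j = ∑ p, K p i * A' p 0 := by
  have h1 : ∑ p, K p i * A' p 0 = (K.transpose * A') i 0 := by
    rw [Matrix.mul_apply]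
    rfl
  have h2 : K.transpose * A' = A * L := by
    rw [hA, ← Matrix.mul_assoc, ← Matrix.mul_assoc, ← Matrix.transpose_mul, hLK,
      Matrix.transpose_one, Matrix.one_mul]
  rw [h1, h2, Matrix.mul_apply]
  exact Finset.sum_congr rfl fun j _ => by rw [hL, mul_one]

theorem colsum {R : Type} [CommRing R] {m : ℕ} (A A' K L : Matrix (Fin (m + 1)) (Fin (m + 1)) R)
    (hA : A' = L.transpose * A * L) (hLK : L * K = 1) (hL : ∀ i, L i 0 = 1) (i : Fin (m + 1)) :
    ∑ j, A j i = ∑ p, K p i * A' 0 p := by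
  have h1 : ∑ p, K p i * A' 0 p = (A' * K) 0 i := by
    rw [Matrix.mul_apply]
    exact Finset.sum_congr rfl fun p _ => mul_comm _ _
  have h2 : A' * K = L.transpose * A := by
    rw [hA, Matrix.mul_assoc, hLK, Matrix.mul_one]
  rw [h1, h2, Matrix.mul_apply]
  exact Finset.sum_congr rfl fun j _ => by rw [Matrix.transpose_apply, hL, one_mul]

/-- Packet BASECH. -/
theorem BASECH : BASECH_stmt := by
  intro m M hM
  have hadj : (KK (MvPolynomial (Fin 3) ℂ) m * M *
      (KK (MvPolynomial (Fin 3) ℂ) m).transpose).adjugate =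
      (LLm (MvPolynomial (Fin 3) ℂ) m).transpose * M.adjugate *
        LLm (MvPolynomial (Fin 3) ℂ) m := by
    rw [Matrix.adjugate_mul_distrib, Matrix.adjugate_mul_distrib, ← Matrix.adjugate_transpose,
      adjK, Matrix.mul_assoc]
  refine ⟨KK (MvPolynomial (Fin 3) ℂ) m * M * (KK (MvPolynomial (Fin 3) ℂ) m).transpose, ?_, ?_⟩
  · intro a b
    rw [Matrix.mul_apply]
    refine IsHomogeneous.sum _ _ _ fun q _ => ?_
    rw [Matrix.transpose_apply, K_const]
    have h1 : ((KK (MvPolynomial (Fin 3) ℂ) m * M) a q).IsHomogeneous 1 := by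
      rw [Matrix.mul_apply]
      refine IsHomogeneous.sum _ _ _ fun p _ => ?_
      rw [K_const]
      have := (isHomogeneous_C (Fin 3) (KK ℂ m a p)).mul (hM p q)
      rwa [zero_add] at this
    have := h1.mul (isHomogeneous_C (Fin 3) (KK ℂ m b q))
    rwa [add_zero] at this
  · intro a i
    constructor
    · rw [rowsum _ _ _ _ hadj (LK _ m) (L_col _ m) i, Finset.mul_sum]
      refine Submodule.sum_mem _ fun p _ => ?_
      rw [K_const, mul_left_comm, C_mul']
      refine Submodule.smul_mem _ _ ?_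
      refine Submodule.mem_sup_left (Submodule.subset_span ⟨(a, p), rfl⟩)
    · rw [colsum _ _ _ _ hadj (LK _ m) (L_col _ m) i, Finset.mul_sum]
      refine Submodule.sum_mem _ fun p _ => ?_
      rw [K_const, mul_left_comm, C_mul']
      refine Submodule.smul_mem _ _ ?_
      refine Submodule.mem_sup_right (Submodule.subset_span ⟨(a, p), rfl⟩)

end Pool.Agent.Helper88.DS
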